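import Mathlib

/-!
# Three-torsion in quadratic class groups: definitions

Everything for the theorem `#cl(O_d)[3] ≤ C |d|^(1/3 - 1/25000)` (note 2894 of MP_e0c7e8_nt).
-/

set_option autoImplicit false


open Polynomial NumberField

namespace TT

/-! ## The curves `Y² = X³ + k` -/

/-- The curve `Y² = X³ + k` over `ℚ`. -/
abbrev E (k : ℤ) : WeierstrassCurve.Affine ℚ := (⟨0, 0, 0, 0, (k : ℚ)⟩ : WeierstrassCurve ℚ)

/-- Its points. -/
abbrev Pt (k : ℤ) : Type := (E k).Point

/-- the naive logarithmic height of the `x`-coordinate -/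
noncomputable def h0 {k : ℤ} : Pt k → ℝ
  | .zero => 0
  | .some x _ _ => Height.logHeight₁ x

/-- the real cube root of `|k|` -/
noncomputable def kap (k : ℤ) : ℝ := |(k : ℝ)| ^ ((1 : ℝ) / 3)

/-- the weighted height -/
noncomputable def Wt {k : ℤ} : Pt k → ℝ
  | .zero => 0
  | .some x _ _ => Real.log (max |(x.num : ℝ)| (kap k * (x.den : ℝ)))

/-- `k` is not a cube -/
def NotCube (k : ℤ) : Prop := ∀ z : ℤ, z ^ 3 ≠ k

/-- the polynomial `X³ + k` -/
noncomputable def cub (k : ℤ) : ℚ[X] := X ^ 3 + C (k : ℚ)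

/-- number of prime divisors of `3 k` -/
noncomputable def om (k : ℤ) : ℕ := (3 * k.natAbs).primeFactors.card

/-- the subgroup `2 E(ℚ)` -/
noncomputable def twoE (k : ℤ) : AddSubgroup (Pt k) := (nsmulAddMonoidHom (α := Pt k) 2).range

end TT
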