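import Pool.Agent.Work.MP_e0c7e8_nt.TT.Defs

/-!
# Statements, part 1: almost orthogonal vectors, heights, two-descent, integral points
-/

set_option autoImplicit false

open Polynomial NumberField

namespace TT

/-! ### Part K -/

def StPSD : Prop := ∀ (N r n : ℕ) (v : Fin N → EuclideanSpace ℝ (Fin r)),
  0 ≤ ∑ i, ∑ j, (inner ℝ (v i) (v j)) ^ n

def StWelch : Prop := ∀ (N r s : ℕ) (v : Fin N → EuclideanSpace ℝ (Fin r)), 1 ≤ s →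
  (∀ i, ‖v i‖ = 1) →
  (N : ℝ) ^ 2 ≤ ((r + s - 1).choose s : ℝ) * ∑ i, ∑ j, (inner ℝ (v i) (v j)) ^ (2 * s)

def StKiss : Prop := ∀ (N r s : ℕ) (v : Fin N → EuclideanSpace ℝ (Fin r)) (c : ℝ), 1 ≤ s →
  0 < c → c < 1 → (∀ i, ‖v i‖ = 1) → (∀ i j, i ≠ j → inner ℝ (v i) (v j) ≤ c) →
  5 * c ^ (2 * s) * ((r + s - 1).choose s : ℝ) < 1 → (N : ℝ) * c ^ (2 * s + 1) < 1

/-- the same for vectors whose squared lengths are at least `a` and whose inner products are at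
most `c a`, with explicit `s` -/
def StKiss' : Prop := ∀ (N r s : ℕ) (v : Fin N → EuclideanSpace ℝ (Fin r)) (a c : ℝ), 1 ≤ s →
  0 < a → 0 < c → c < 1 → (∀ i, a ≤ ‖v i‖ ^ 2) → (∀ i j, i ≠ j → inner ℝ (v i) (v j) ≤ c * a) →
  5 * c ^ (2 * s) * ((r + s - 1).choose s : ℝ) < 1 → (N : ℝ) * c ^ (2 * s + 1) < 1

/-! ### Part H -/

def StDen : Prop := ∀ (k : ℤ) (x y : ℚ), y ^ 2 = x ^ 3 + k →
  ∃ (A C : ℤ) (B : ℕ), 1 ≤ B ∧ x = A / B ^ 2 ∧ y = C / B ^ 3 ∧ IsCoprime A (B : ℤ) ∧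
    IsCoprime C (B : ℤ) ∧ C ^ 2 = A ^ 3 + k * B ^ 6 ∧ x.num = A ∧ x.den = B ^ 2

/-- the `x`-coordinate of `2P` -/
def StDbl : Prop := ∀ (k : ℤ) (x y : ℚ) (h : (E k).Nonsingular x y), y ≠ 0 →
  ∃ (y' : ℚ) (h' : (E k).Nonsingular ((x ^ 4 - 8 * k * x) / (4 * (x ^ 3 + k))) y'),
    (2 : ℕ) • (WeierstrassCurve.Affine.Point.some x y h : Pt k) =
      WeierstrassCurve.Affine.Point.some ((x ^ 4 - 8 * k * x) / (4 * (x ^ 3 + k))) y' h'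

def StDupHi : Prop := ∀ (k : ℤ), k ≠ 0 → ∀ P : Pt k, P ≠ 0 → (2 : ℕ) • P ≠ 0 →
  Wt ((2 : ℕ) • P) ≤ 4 * Wt P + Real.log 9

def StDupLo : Prop := ∀ (D0 k : ℤ) (y : ℕ), Squarefree D0 → 1 ≤ y → k = 16 * D0 * (y : ℤ) ^ 2 →
  ∀ P : Pt k, P ≠ 0 → (2 : ℕ) • P ≠ 0 →
    4 * Wt P - (14 + 6 * Real.log y) ≤ Wt ((2 : ℕ) • P)

def StPar : Prop := ∀ (k : ℤ), k ≠ 0 → ∃ C : ℝ, ∀ P Q : Pt k,
  |h0 (P + Q) + h0 (P - Q) - 2 * (h0 P + h0 Q)| ≤ C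

def StNorth : Prop := ∀ (k : ℤ) (B : ℝ), {P : Pt k | h0 P ≤ B}.Finite

def StCmp : Prop := ∀ (k : ℤ), k ≠ 0 → ∀ P : Pt k, |Wt P - h0 P| ≤ |Real.log (kap k)|

def StNoTwo : Prop := ∀ (k : ℤ), k ≠ 0 → NotCube k → ∀ P : Pt k, (2 : ℕ) • P = 0 → P = 0

/-- canonical height from a duplication law and an approximate parallelogram law -/
def StCanon : Prop := ∀ (G : Type) [AddCommGroup G] (W h : G → ℝ) (a b C C' : ℝ),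
  W 0 = 0 → (∀ g, |W g - h g| ≤ C') →
  (∀ x y, |h (x + y) + h (x - y) - 2 * (h x + h y)| ≤ C) →
  (∀ x : G, (2 : ℕ) • x = 0 → x = 0) → 0 ≤ a → 0 ≤ b →
  (∀ x : G, x ≠ 0 → 4 * W x - a ≤ W ((2 : ℕ) • x) ∧ W ((2 : ℕ) • x) ≤ 4 * W x + b) →
  ∃ q : G → ℝ, (∀ x y, q (x + y) + q (x - y) = 2 * (q x + q y)) ∧
    ∀ x, x ≠ 0 → W x - a / 3 ≤ q x ∧ q x ≤ W x + b / 3

/-- a non-negative quadratic form on a finitely generated abelian group -/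
def StEmb : Prop := ∀ (G : Type) [AddCommGroup G] (q : G → ℝ), AddGroup.FG G →
  (∀ x y, q (x + y) + q (x - y) = 2 * (q x + q y)) → (∀ x, 0 ≤ q x) →
  ∃ (r : ℕ) (φ : G →+ EuclideanSpace ℝ (Fin r)), (∀ x, ‖φ x‖ ^ 2 = q x) ∧
    2 ^ r ≤ (nsmulAddMonoidHom (α := G) 2).range.index

/-! ### Part D: two-descent -/

/-- the descent map `P ↦ x(P) - e` -/
noncomputable def kapF {k : ℤ} {F : Type} [Field F] [CharZero F] (e : F) : Pt k → F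
  | .zero => 1
  | .some x _ _ => (x : F) - e

def StKapNe : Prop := ∀ (k : ℤ) (F : Type) [Field F] [NumberField F] (e : F), e ^ 3 = -(k : F) →
  k ≠ 0 → NotCube k → ∀ P : Pt k, kapF e P ≠ 0

def StKapHom : Prop := ∀ (k : ℤ) (F : Type) [Field F] [NumberField F] (e : F), e ^ 3 = -(k : F) →
  k ≠ 0 → NotCube k → ∀ P Q : Pt k, ∃ z : F, z ≠ 0 ∧ kapF e P * kapF e Q = kapF e (P + Q) * z ^ 2

def StLin : Prop := ∀ (k : ℤ) (F : Type) [Field F] [NumberField F] (e : F), e ^ 3 = -(k : F) →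
  k ≠ 0 → NotCube k → Module.finrank ℚ F = 3 → LinearIndependent ℚ ![1, e, e ^ 2]

def StKapKer : Prop := ∀ (k : ℤ) (F : Type) [Field F] [NumberField F] (e : F), e ^ 3 = -(k : F) →
  k ≠ 0 → NotCube k → Module.finrank ℚ F = 3 → ∀ (P : Pt k) (z : F), kapF e P = z ^ 2 →
    ∃ Q : Pt k, P = (2 : ℕ) • Q

/-- the ideal of `x(P) - e` up to squares -/
def StSel : Prop := ∀ (k : ℤ) (F : Type) [Field F] [NumberField F] (e : F), e ^ 3 = -(k : F) →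
  k ≠ 0 → NotCube k → Module.finrank ℚ F = 3 → ∀ P : Pt k, ∃ (d : 𝓞 F) (B : ℕ) (g a : Ideal (𝓞 F)),
    d ≠ 0 ∧ B ≠ 0 ∧ (d : F) = kapF e P * (B : F) ^ 2 ∧ Ideal.span {d} = g * a ^ 2 ∧
    Squarefree g ∧ ∀ p : Ideal (𝓞 F), p.IsPrime → g ≤ p → ((3 * k : ℤ) : 𝓞 F) ∈ p

/-- few squarefree ideals supported on the primes above `n` -/
def StSqfIdl : Prop := ∀ (F : Type) [Field F] [NumberField F] (n : ℤ), n ≠ 0 →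
  {g : Ideal (𝓞 F) | Squarefree g ∧ ∀ p : Ideal (𝓞 F), p.IsPrime → g ≤ p → (n : 𝓞 F) ∈ p}.Finite ∧
  Nat.card {g : Ideal (𝓞 F) // Squarefree g ∧
    ∀ p : Ideal (𝓞 F), p.IsPrime → g ≤ p → (n : 𝓞 F) ∈ p} ≤
    2 ^ (Module.finrank ℚ F * n.natAbs.primeFactors.card)

/-- units modulo squares -/
def StUnitSq : Prop := ∀ (F : Type) [Field F] [NumberField F],
  (powMonoidHom (α := (𝓞 F)ˣ) 2).range.index ≠ 0 ∧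
  (powMonoidHom (α := (𝓞 F)ˣ) 2).range.index ≤ 2 ^ Module.finrank ℚ F

def StIndex0 : Prop := ∀ (k : ℤ) (F : Type) [Field F] [NumberField F] (e : F), e ^ 3 = -(k : F) →
  k ≠ 0 → NotCube k → Module.finrank ℚ F = 3 →
  (twoE k).index ≠ 0 ∧ (twoE k).index ≤ 8 * 8 ^ om k * classNumber F

def StExF : Prop := ∀ (k : ℤ), k ≠ 0 → NotCube k →
  ∃ (F : Type) (_ : Field F) (_ : NumberField F) (e : F), e ^ 3 = -(k : F) ∧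
    Module.finrank ℚ F = 3

def StDisc : Prop := ∀ (k : ℤ) (F : Type) [Field F] [NumberField F] (e : F), e ^ 3 = -(k : F) →
  k ≠ 0 → NotCube k → Module.finrank ℚ F = 3 → |discr F| ≤ 27 * k ^ 2

/-- the number of ideals of norm `n` -/
def StIdlNorm : Prop := ∀ (K : Type) [Field K] [NumberField K] (n : ℕ), n ≠ 0 →
  Nat.card {I : Ideal (𝓞 K) // Ideal.absNorm I = n} ≤ n.divisors.card ^ Module.finrank ℚ K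

def StIdl : Prop := ∀ (m : ℕ) (ε : ℝ), 0 < ε → ∃ C : ℝ, 0 < C ∧
  ∀ (K : Type) [Field K] [NumberField K], Module.finrank ℚ K = m → ∀ x : ℝ, 1 ≤ x →
    (Nat.card {I : Ideal (𝓞 K) // 0 < Ideal.absNorm I ∧ (Ideal.absNorm I : ℝ) ≤ x} : ℝ) ≤
      C * x ^ (1 + ε)

def StCls : Prop := ∀ (m : ℕ) (ε : ℝ), 0 < ε → ∃ C : ℝ, 0 < C ∧
  ∀ (K : Type) [Field K] [NumberField K], Module.finrank ℚ K = m →
    (classNumber K : ℝ) ≤ C * (|discr K| : ℝ) ^ (1 / 2 + ε)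

def StIndex : Prop := ∀ ε : ℝ, 0 < ε → ∃ C : ℝ, 0 < C ∧ ∀ k : ℤ, k ≠ 0 → NotCube k →
  (twoE k).index ≠ 0 ∧ ((twoE k).index : ℝ) ≤ C * |(k : ℝ)| ^ (1 + ε)

def StMW : Prop := ∀ k : ℤ, k ≠ 0 → NotCube k → AddGroup.FG (Pt k)

/-- everything about heights that is used later -/
def StHt : Prop := ∀ (D0 k : ℤ) (y : ℕ), Squarefree D0 → 1 ≤ y → k = 16 * D0 * (y : ℤ) ^ 2 →
  NotCube k → ∃ (r : ℕ) (φ : Pt k →+ EuclideanSpace ℝ (Fin r)),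
    (∀ P : Pt k, P ≠ 0 → Wt P - (14 + 6 * Real.log y) / 3 ≤ ‖φ P‖ ^ 2 ∧
      ‖φ P‖ ^ 2 ≤ Wt P + Real.log 9 / 3) ∧ 2 ^ r ≤ (twoE k).index

/-! ### Part N: integral points -/

/-- two integral points congruent modulo `T` -/
def StDiff : Prop := ∀ (k : ℤ) (T : ℕ), k ≠ 0 → T.Prime → ∀ (x₁ y₁ x₂ y₂ : ℤ)
  (h₁ : (E k).Nonsingular (x₁ : ℚ) (y₁ : ℚ)) (h₂ : (E k).Nonsingular (x₂ : ℚ) (y₂ : ℚ)),
  (T : ℤ) ∣ x₁ - x₂ → (T : ℤ) ∣ y₁ - y₂ → ¬ (T : ℤ) ∣ 2 * y₁ → (x₁, y₁) ≠ (x₂, y₂) →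
    Real.log (kap k) + 2 * Real.log T ≤
      Wt ((WeierstrassCurve.Affine.Point.some _ _ h₁ : Pt k) -
        WeierstrassCurve.Affine.Point.some _ _ h₂) ∧
    (WeierstrassCurve.Affine.Point.some _ _ h₁ : Pt k) -
        WeierstrassCurve.Affine.Point.some _ _ h₂ ≠ 0

/-- choice of the prime `T` and of a residue class -/
def StPig : Prop := ∀ (k : ℤ) (X M : ℝ) (S : Finset (ℤ × ℤ)), k ≠ 0 →
  (∀ p ∈ S, p.2 ^ 2 = p.1 ^ 3 + k ∧ p.2 ≠ 0 ∧ |(p.2 : ℝ)| ≤ M) → 1000 ≤ X → M ≤ X ^ 6 / 2 →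
  ∃ (T : ℕ) (S' : Finset (ℤ × ℤ)), T.Prime ∧ X ≤ T ∧ (T : ℝ) ≤ 8192 * X ∧ S' ⊆ S ∧
    (S.card : ℝ) ≤ 10 ^ 5 * X * S'.card ∧
    (∀ p ∈ S', ¬ (T : ℤ) ∣ 2 * p.2) ∧
    ∀ p ∈ S', ∀ p' ∈ S', (T : ℤ) ∣ p.1 - p'.1 ∧ (T : ℤ) ∣ p.2 - p'.2

def StPN : Prop := ∃ D1 : ℝ, ∀ (D0 : ℤ) (y : ℕ), Squarefree D0 → D1 ≤ |(D0 : ℝ)| → 1 ≤ y →
  (y : ℝ) ≤ |(D0 : ℝ)| ^ ((16 : ℝ) / 100000) → ∀ S : Finset (ℤ × ℤ),
  (∀ p ∈ S, p.2 ^ 2 - D0 * (y : ℤ) ^ 2 = 4 * p.1 ^ 3 ∧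
    |(p.1 : ℝ)| ≤ |(D0 : ℝ)| ^ ((1 : ℝ) / 3 + 11 / 100000)) →
  (S.card : ℝ) ≤ |(D0 : ℝ)| ^ ((1 : ℝ) / 6 - 1 / 5000)

end TT
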